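import Pool.Agent.N19.RB.KB

/-!
# Brauer's `k(B)` conjecture and Galois-stable blocks

`O` is a valuation subring of `ℂ` whose maximal ideal contains `p`; it defines the `p`-blocks of
finite groups. Let `B` be a `p`-block of `G` with defect group `D`, let
`m` be the `p'`-part of `|G|`, let `S` be the image in `(ℤ/m)^×` of the stabiliser of `B` in
`Aut(ℂ)` and let `ι = (ℤ/m)^×/S`. Automorphisms fixing the `m`-th roots of unity fix `B`, so `ι`
indexes the Galois conjugates `B_i` of `B`. Let `(ℤ/m)^×` act on `C_m × G^ι` (by automorphisms of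
`C_m` and permutations of the factors) and let `W` be the semidirect product. The characters of
`C_m × G^ι` which are products of a fixed faithful character `λ` of `C_m` and of characters in the
`B_i` form a block with trivial stabiliser in `(ℤ/m)^×`; the characters induced from them form a
block `B'` of `W` with defect group `D^ι`, with `k(B') = k(B)^|ι|`, and `B'` is closed under `Aut(ℂ)`: `σ` maps the
block of `λ ⊗ ⨂ B_i` to that of `λ^u ⊗ ⨂ B_{ui}`, its conjugate in `W`. The powers of `B'`, blocks of
`W^r`, are closed under `Aut(ℂ)` too, and a bound `k ≤ M |W|^{rε} |D'|^{rc}` for all of them gives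
`k(B') ≤ |W|^ε |D'|^c`.
-/

set_option autoImplicit false

namespace Pool.Agent.Results.MP_a15589_al.GaloisStableBlocks

open Pool.Agent.Q288.MB Pool.Agent.N19.RB

/-- Let `p` be any prime. (1) For every `p`-block `B` of a finite group with defect group `D` and `n` Galois
conjugates there is a `p`-block `B'` of a finite group which is equal to all its Galois conjugates, with
defect group isomorphic to `D^n`, such that `k(B') = k(B)^n`.
(2) Let `C` be a class of groups closed under isomorphisms and finite powers and `c` a real number. The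
inequality `k(B) ≤ |D|^c` holds for all `p`-blocks of finite groups with defect groups `D` in `C` if and only if
for every `ε > 0` there is an `M` such that `k(B) ≤ M |G|^ε |D|^c` for those `p`-blocks of finite groups `G` with
defect groups in `C` which are equal to all their Galois conjugates. -/
theorem result (p : ℕ) [Fact p.Prime] (O : ValuationSubring ℂ) (hpO : (p : ℂ) ∈ O.nonunits) :
    (∀ X : BDat, X.IsPBlock p O → ∃ Y : BDat, Y.IsPBlock p O ∧
      (∀ σ : ℂ ≃+* ℂ, gal σ Y.B = Y.B) ∧ Nonempty (Y.D ≃* (Fin (numConj X.B) → X.D)) ∧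
      Nat.card Y.B = Nat.card X.B ^ numConj X.B) ∧
    ∀ C : (D : Type) → Group D → Prop, PowClosed C → ∀ c : ℝ,
      ((∀ X : BDat, X.IsPBlock p O → C X.D inferInstance →
          (Nat.card X.B : ℝ) ≤ (Nat.card X.D : ℝ) ^ c) ↔
        ∀ ε : ℝ, 0 < ε → ∃ M : ℝ, ∀ X : BDat, X.IsPBlock p O → C X.D inferInstance →
          (∀ σ : ℂ ≃+* ℂ, gal σ X.B = X.B) →
          (Nat.card X.B : ℝ) ≤ M * (Nat.card X.G : ℝ) ^ ε * (Nat.card X.D : ℝ) ^ c) :=
  ⟨fun _ hX => exists_stable hpO hX, fun _ hC c => kB_iff hpO hC c⟩

end Pool.Agent.Results.MP_a15589_al.GaloisStableBlocks
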