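import Pool.Agent.N85.KG.Fin
import Pool.Agent.N85.KG.Covb
import Pool.Agent.N85.KG.Nb
import Pool.Agent.N85.KG.Cvr
import Pool.Agent.N85.KG.Dim
import Pool.Agent.N85.KG.Pk
import Pool.Agent.N85.KG.Pnb
import Pool.Agent.N85.KG.Twk
import Pool.Agent.N85.KG.Idk
import Pool.Agent.N85.KG.Growk
import Pool.Agent.N85.AW.Dens
import Pool.Agent.N85.AW.Rel
import Pool.Agent.N85.AW.Rsep

/-!
# Brauer's k(B)-conjecture and groups generated by copies of a given group

`F` is an algebraically closed field of characteristic `p` and `red` a ring homomorphism from the ring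
of all complex algebraic integers to `F`. The elements of the group algebra `F[G]` are the functions
`G → F`, those of its centre the class functions. The blocks of `G` are given by their central
characters.

Proof. Let `B` be a block of `H` of defect `d`. There is a central idempotent `z` of `F[H]`, supported on
the commutator subgroup, such that the blocks of `H` under `z` are twists of `B` by linear characters;
let `N` be their number. Let `T = S^r`, `n = |T|`, and let `Γ` be the kernel of the homomorphism
`H ≀ T → H/[H, H]`, the product of the components. It is generated by subgroups isomorphic to `S`. The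
element `z ⊗ ⋯ ⊗ z` of the group algebra of the base group `H^n` is supported on its intersection with
`Γ`, whose index in the base group is at most `|H/[H, H]|` and whose index in `Γ` is `n`. When one passes
to a normal subgroup of index `m` or back, the number of irreducible characters and the number of blocks
under a central element of the smaller group change at most by the factor `m` (for the blocks this needs
that every irreducible representation in a covered block lies under one in the covering block), and the
defects by at most the `p`-part of `m`. So `Γ` has at least `(N k(B))^n / (c₁ n)` irreducible characters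
in at most `c₂ n N^n` blocks of defects at most `log_p (c₃ n p^(dn))` under `z ⊗ ⋯ ⊗ z`, and the
approximate conjecture for `Γ` gives `k(B)^n ≤ c₄ n^c₅ |Γ|^o(1) |D|^n`; let `n → ∞`.
-/

set_option autoImplicit false

open scoped Classical

noncomputable section

namespace Pool.Agent.Results.MP_a15589_al.GeneratedByCopies

/-- `φ` is the character of an irreducible finite-dimensional representation of `G` over `K`. -/
def IsIrr {K : Type} [Field K] {G : Type} [Group G] (φ : G → K) : Prop :=
  ∃ (V : Type) (_ : AddCommGroup V) (_ : Module K V) (_ : FiniteDimensional K V)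
    (ρ : Representation K G V), ρ.IsIrreducible ∧ φ = ρ.character

/-- `f` is a class function. -/
def IsClassFun {K G : Type} [Group G] (f : G → K) : Prop := ∀ g x : G, f (g * x * g⁻¹) = f x

/-- `B` is (the central character of) a block of `G`: an algebra homomorphism from the centre of `F[G]`
to `F`. (The values of `B` at functions which are not class functions are irrelevant.) -/
def IsBlock {F : Type} [Field F] {G : Type} [Group G] (B : (G → F) → F) : Prop :=
  (∀ f g : G → F, IsClassFun f → IsClassFun g → B (f + g) = B f + B g) ∧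
  (∀ (a : F) (f : G → F), IsClassFun f → B (a • f) = a * B f) ∧
  B (Pi.single 1 1) = 1 ∧
  ∀ f g : G → F, IsClassFun f → IsClassFun g →
    B (fun x => ∑ᶠ y : G, f y * g (y⁻¹ * x)) = B f * B g

/-- The reduction map `red`, extended by zero to all complex numbers. -/
def redC {F : Type} [Field F] (red : integralClosure ℤ ℂ →+* F) (a : ℂ) : F :=
  if h : IsIntegral ℤ a then red ⟨a, h⟩ else 0

/-- `∑_C f(C) · red (|C| χ(C) / χ(1))`, the sum over the conjugacy classes `C` of `J`: the value of the
reduction of the central character of `χ` at the central element `f` of `F[J]`. -/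
def centralValue {F : Type} [Field F] (red : integralClosure ℤ ℂ →+* F) {J : Type} [Group J]
    (χ : J → ℂ) (f : J → F) : F :=
  ∑ᶠ C : ConjClasses J, f C.out * redC red ((Nat.card C.carrier : ℂ) * χ C.out / χ 1)

/-- `χ` is an irreducible complex character of `G` in the block `B`: the reduction of its central
character is `B`. -/
def InBlock {F : Type} [Field F] (red : integralClosure ℤ ℂ →+* F) {G : Type} [Group G]
    (B : (G → F) → F) (χ : G → ℂ) : Prop :=
  IsIrr χ ∧ ∀ f : G → F, IsClassFun f → centralValue red χ f = B f

/-- `k(B)`: the number of the irreducible complex characters in `B`. -/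
def kB {F : Type} [Field F] (red : integralClosure ℤ ℂ →+* F) {G : Type} [Group G]
    (B : (G → F) → F) : ℕ := Nat.card {χ : G → ℂ // InBlock red B χ}

/-- The `p`-part of `|G|/χ(1)` is `p ^ d`. -/
def HasDefect (p : ℕ) {G : Type} [Group G] (χ : G → ℂ) (d : ℕ) : Prop :=
  ∃ n : ℕ, χ 1 = (n : ℂ) ∧ n.factorization p + d = (Nat.card G).factorization p

/-- `d` is the defect of the block `B` (so the defect groups of `B` have order `p ^ d`): the `p`-part
of `|G|/χ(1)` is at most `p ^ d` for all `χ` in `B`, with equality for some `χ` in `B`. -/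
def IsDefect (p : ℕ) {F : Type} [Field F] (red : integralClosure ℤ ℂ →+* F) {G : Type} [Group G]
    (B : (G → F) → F) (d : ℕ) : Prop :=
  (∃ χ : G → ℂ, InBlock red B χ ∧ HasDefect p χ d) ∧
    ∀ (χ : G → ℂ) (d' : ℕ), InBlock red B χ → HasDefect p χ d' → d' ≤ d

/-- `G` is generated by its subgroups isomorphic to `S`. -/
def GeneratedByCopies (S G : Type) [Group S] [Group G] : Prop :=
  ⨆ S' : {S' : Subgroup G // Nonempty (S' ≃* S)}, S'.1 = ⊤

theorem block_iff {F : Type} [Field F] {G : Type} [Group G] (B : (G → F) → F) :
    IsBlock B ↔ Pool.Agent.Y63.NV.IsBlock B :=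
  ⟨fun h => ⟨h.1, h.2.1, h.2.2.1, h.2.2.2⟩, fun h => ⟨h.add, h.smul, h.one, h.mul⟩⟩

theorem perfect_of {S G : Type} [Group S] [Group G] (hS : commutator S = ⊤)
    (h : GeneratedByCopies S G) : commutator G = ⊤ := by
  rw [eq_top_iff]
  unfold GeneratedByCopies at h
  rw [← h]
  refine iSup_le fun S' => ?_
  obtain ⟨e⟩ := S'.2
  have h1 : commutator S'.1 = ⊤ := by
    have h2 : (commutator S).map e.symm.toMonoidHom = commutator S'.1 := by
      unfold commutator
      rw [Subgroup.map_commutator]
      have h3 : (⊤ : Subgroup S).map e.symm.toMonoidHom = ⊤ :=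
        Subgroup.map_top_of_surjective _ e.symm.surjective
      rw [h3]
    rw [← h2, hS]
    exact Subgroup.map_top_of_surjective _ e.symm.surjective
  have h4 : S'.1 = (commutator S'.1).map S'.1.subtype := by
    rw [h1, ← MonoidHom.range_eq_map, Subgroup.range_subtype]
  rw [h4]
  unfold commutator
  rw [Subgroup.map_commutator]
  exact Subgroup.commutator_mono le_top le_top

theorem apx_iff (p : ℕ) {F : Type} [Field F] (red : integralClosure ℤ ℂ →+* F) (S : Type)
    [Group S] (c : ℝ) : (∀ ε : ℝ, 0 < ε → ∃ C : ℝ, ∀ (G : Type) [Group G] [Finite G],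
      GeneratedByCopies S G → ∀ B : (G → F) → F, IsBlock B → ∀ d : ℕ, IsDefect p red B d →
        (kB red B : ℝ) ≤ C * (Nat.card G : ℝ) ^ ε * ((p : ℝ) ^ d) ^ c) ↔
      Pool.Agent.N85.KG.ApxK p red S c := by
  refine forall_congr' fun ε => imp_congr_right fun _ => exists_congr fun C => ?_
  constructor
  · intro h G _ _ hG B hB d hd
    exact h G hG B ((block_iff B).mpr hB) d hd
  · intro h G _ _ hG B hB d hd
    exact h G hG B ((block_iff B).mp hB) d hd

/-- **Brauer's k(B)-conjecture and groups generated by copies of a given group.** Let `S` be a nontrivial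
finite group.
(1) Brauer's k(B)-conjecture: `k(B) ≤ p ^ d` holds for all blocks `B` of all finite groups (`d` the defect
of `B`) if and only if for every `ε > 0` there is a constant `C` such that `k(B) ≤ C |G|^ε p ^ d` for all
blocks `B` of all finite groups `G` generated by subgroups isomorphic to `S`.
(2) The same with `(p ^ d) ^ c` instead of `p ^ d`, for every real number `c ≥ 0`.
(3) If `S` is perfect, then the groups generated by subgroups isomorphic to `S` are perfect. -/
theorem result (p : ℕ) [Fact p.Prime] (F : Type) [Field F] [IsAlgClosed F] [CharP F p]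
    (red : integralClosure ℤ ℂ →+* F) (S : Type) [Group S] [Finite S] [Nontrivial S] :
    ((∀ (G : Type) [Group G] [Finite G], ∀ B : (G → F) → F, IsBlock B → ∀ d : ℕ,
        IsDefect p red B d → kB red B ≤ p ^ d) ↔
      ∀ ε : ℝ, 0 < ε → ∃ C : ℝ, ∀ (G : Type) [Group G] [Finite G], GeneratedByCopies S G →
        ∀ B : (G → F) → F, IsBlock B → ∀ d : ℕ, IsDefect p red B d →
          (kB red B : ℝ) ≤ C * (Nat.card G : ℝ) ^ ε * (p : ℝ) ^ d) ∧
    (∀ c : ℝ, 0 ≤ c →
      ((∀ (G : Type) [Group G] [Finite G], ∀ B : (G → F) → F, IsBlock B → ∀ d : ℕ,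
        IsDefect p red B d → (kB red B : ℝ) ≤ ((p : ℝ) ^ d) ^ c) ↔
      ∀ ε : ℝ, 0 < ε → ∃ C : ℝ, ∀ (G : Type) [Group G] [Finite G], GeneratedByCopies S G →
        ∀ B : (G → F) → F, IsBlock B → ∀ d : ℕ, IsDefect p red B d →
          (kB red B : ℝ) ≤ C * (Nat.card G : ℝ) ^ ε * ((p : ℝ) ^ d) ^ c)) ∧
    (commutator S = ⊤ → ∀ (G : Type) [Group G], GeneratedByCopies S G → commutator G = ⊤) := by
  have hREL := Pool.Agent.N85.AW.Rel.main Pool.Agent.N85.AW.Dens.main
  have hCVR := Pool.Agent.N85.KG.Cvr.main hREL
  have hPK := Pool.Agent.N85.KG.Pk.main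
  have hPNB := Pool.Agent.N85.KG.Pnb.main
  have hNB := Pool.Agent.N85.KG.Nb.main hREL Pool.Agent.N85.KG.Covb.main
  have hDIM := Pool.Agent.N85.KG.Dim.main
  have hIDK := Pool.Agent.N85.KG.Idk.main Pool.Agent.N85.KG.Twk.main Pool.Agent.N85.AW.Rsep.main
  have hGROW := Pool.Agent.N85.KG.Growk.main
  have key : ∀ c : ℝ, 0 ≤ c →
      ((∀ (G : Type) [Group G] [Finite G], ∀ B : (G → F) → F, IsBlock B → ∀ d : ℕ,
        IsDefect p red B d → (kB red B : ℝ) ≤ ((p : ℝ) ^ d) ^ c) ↔
      ∀ ε : ℝ, 0 < ε → ∃ C : ℝ, ∀ (G : Type) [Group G] [Finite G], GeneratedByCopies S G →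
        ∀ B : (G → F) → F, IsBlock B → ∀ d : ℕ, IsDefect p red B d →
          (kB red B : ℝ) ≤ C * (Nat.card G : ℝ) ^ ε * ((p : ℝ) ^ d) ^ c) := by
    intro c hc
    constructor
    · intro h ε hε
      refine ⟨1, fun G _ _ _ B hB d hd => ?_⟩
      have h1 : (1 : ℝ) ≤ (Nat.card G : ℝ) ^ ε :=
        Real.one_le_rpow (by exact_mod_cast Nat.card_pos) hε.le
      rw [one_mul]
      exact (h G B hB d hd).trans (le_mul_of_one_le_left (by positivity) h1)
    · intro h G _ _ B hB d hd
      rw [apx_iff] at h
      exact Pool.Agent.N85.KG.coreK red hREL hCVR hPK hPNB hNB hDIM hIDK hGROW S c hc h G B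
        ((block_iff B).mp hB) d hd
  refine ⟨?_, key, fun hS G _ hG => perfect_of hS hG⟩
  have h1 := key 1 zero_le_one
  simp only [Real.rpow_one] at h1
  rw [← h1]
  constructor
  · intro h G _ _ B hB d hd
    exact_mod_cast h G B hB d hd
  · intro h G _ _ B hB d hd
    exact_mod_cast h G B hB d hd

end Pool.Agent.Results.MP_a15589_al.GeneratedByCopies
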