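import Mathlib
import Pool.Agent.N20.Sub5

/-!
Brauer's inequality `k(B) ≤ |D|` for blocks having a major subsection `(u, b)` with
`l(b) ≤ p + 1`.
-/

namespace Pool.Agent.Results.MP_a15589_al.MajorSubsections

open Pool.Agent.H254R3.IN Pool.Agent.N20

/-- Let `B` be a `p`-block of a finite group `G` with defect group `D` and let `(u, b)` be a major
subsection of `B`: `u` is a `p`-element of `G` and `b` is a block of `C_G(u)` with `b^G = B` whose
defect groups have order `|D|` (for example `u = 1` and `b = B`). Then
`(p + 1) k(B) ≤ |D| max(p + 1, l(b))`. In particular `k(B) ≤ |D|` if `l(b) ≤ p + 1` for some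
major subsection `(u, b)`. -/
theorem result {G : Type} [Group G] [Finite G] {p : ℕ} (hp : p.Prime) (O : ValuationSubring ℂ)
    (hpO : (p : ℂ) ∈ O.nonunits) (B : Set (G → ℂ)) (hB : IsBlock O B) (D : Subgroup G)
    (hD : IsDefectGroup p O B D) (u : G) (k : ℕ) (hu : orderOf u = p ^ k)
    (b : Set (Subgroup.centralizer ({u} : Set G) → ℂ)) (hb : IsBlock O b)
    (Q : Subgroup (Subgroup.centralizer ({u} : Set G))) (hQ : IsDefectGroup p O b Q)
    (hcard : Nat.card Q = Nat.card D) (hbB : Induces O B (Subgroup.centralizer ({u} : Set G)) b) :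
    (p + 1) * Nat.card B ≤ Nat.card D * max (p + 1) (lB p b) := by
  have := Fintype.ofFinite G
  exact major_bound hp hpO hB hD hu hb hQ hcard hbB

end Pool.Agent.Results.MP_a15589_al.MajorSubsections
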